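import Pool.Agent.TH331.RZ.Defs

/-!
# Job 233: a multiplier estimate (for MP_d18e52_an, S06241)
-/

set_option autoImplicit false

open MeasureTheory Set Filter Topology
open scoped ENNReal Real FourierTransform

namespace Pool.Agent.TH279.J233

open Pool.Agent.Helper88.SE Pool.Agent.TH331.RZ

lemma W_integrable (d : ℕ) (a : ℝ) (ha : 0 < a) (ha2 : a < 2) :
    Integrable (fun ξ : E d => min (‖ξ‖ ^ 2) 1 * ‖ξ‖ ^ (-((d:ℝ) + 1) - a)) := by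
  have key : IntegrableOn (fun y : ℝ => y ^ (Module.finrank ℝ (E d) - 1) •
      (min (y ^ 2) 1 * y ^ (-((d:ℝ) + 1) - a))) (Ioi 0) := by
    rw [← Ioc_union_Ioi_eq_Ioi (zero_le_one' ℝ)]
    apply IntegrableOn.union
    · have h1 : IntegrableOn (fun y : ℝ => y ^ (1 - a)) (Ioc 0 1) := by
        rw [← intervalIntegrable_iff_integrableOn_Ioc_of_le zero_le_one]
        exact intervalIntegral.intervalIntegrable_rpow' (by linarith)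
      refine h1.congr_fun ?_ measurableSet_Ioc
      intro y hy
      have hy0 : 0 < y := hy.1
      have hmin : min (y ^ 2) 1 = y ^ 2 := min_eq_left (by nlinarith [hy.2])
      simp only [finrank_euclideanSpace, Fintype.card_fin, Nat.add_sub_cancel, smul_eq_mul]
      rw [hmin, ← Real.rpow_natCast y d, ← Real.rpow_natCast y 2, ← Real.rpow_add hy0,
        ← Real.rpow_add hy0]
      congr 1
      push_cast
      ring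
    · have h1 : IntegrableOn (fun y : ℝ => y ^ (-1 - a)) (Ioi 1) :=
        integrableOn_Ioi_rpow_of_lt (by linarith) zero_lt_one
      refine h1.congr_fun ?_ measurableSet_Ioi
      intro y hy
      have hy1 : (1:ℝ) < y := hy
      have hy0 : 0 < y := by linarith
      have hmin : min (y ^ 2) 1 = 1 := min_eq_right (by nlinarith)
      simp only [finrank_euclideanSpace, Fintype.card_fin, Nat.add_sub_cancel, smul_eq_mul]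
      rw [hmin, one_mul, ← Real.rpow_natCast y d, ← Real.rpow_add hy0]
      congr 1
      ring
  exact (integrable_fun_norm_addHaar (volume : Measure (E d))
    (f := fun r : ℝ => min (r ^ 2) 1 * r ^ (-((d:ℝ) + 1) - a))).2 key

lemma decay {d : ℕ} (F : SchwartzMap (E d) ℂ) (k : ℕ) : ∃ C : ℝ, 0 ≤ C ∧ ∀ x : E d,
    ‖F x‖ ≤ C / (1 + ‖x‖) ^ k ∧ ‖fderiv ℝ F x‖ ≤ C / (1 + ‖x‖) ^ k := by
  refine ⟨2 ^ k * (Finset.Iic (k, 1)).sup (fun m => SchwartzMap.seminorm ℝ m.1 m.2) F, ?_, ?_⟩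
  · exact mul_nonneg (by positivity) (apply_nonneg _ _)
  intro x
  have hpos : 0 < (1 + ‖x‖) ^ k := by positivity
  constructor
  · rw [le_div_iff₀ hpos, mul_comm]
    have := SchwartzMap.one_add_le_sup_seminorm_apply (𝕜 := ℝ) (m := (k, 1)) (k := k) (n := 0)
      le_rfl (by norm_num) F x
    rwa [norm_iteratedFDeriv_zero] at this
  · rw [le_div_iff₀ hpos, mul_comm]
    have := SchwartzMap.one_add_le_sup_seminorm_apply (𝕜 := ℝ) (m := (k, 1)) (k := k) (n := 1)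
      le_rfl le_rfl F x
    rwa [norm_iteratedFDeriv_one] at this

/-- pointwise bound of the difference near the centre -/
lemma diff_bound {d : ℕ} (F : SchwartzMap (E d) ℂ) (k : ℕ) (C : ℝ) (hC : 0 ≤ C)
    (h : ∀ x : E d, ‖F x‖ ≤ C / (1 + ‖x‖) ^ k ∧ ‖fderiv ℝ F x‖ ≤ C / (1 + ‖x‖) ^ k)
    (ζ ξ : E d) (hξ : ‖ξ‖ ≤ (1 + ‖ζ‖) / 2) :
    ‖F (ζ - ξ) - F ζ‖ ^ 2 ≤ (2 * 2 ^ k * C) ^ 2 / (1 + ‖ζ‖) ^ k * min (‖ξ‖ ^ 2) 1 := by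
  have hR : 0 ≤ ‖ζ‖ := norm_nonneg _
  have hpos : 0 < (1 + ‖ζ‖) ^ k := by positivity
  have hone : 1 ≤ (1 + ‖ζ‖) ^ k := one_le_pow₀ (by linarith)
  -- on the ball
  have hball : ∀ y ∈ Metric.closedBall ζ ((1 + ‖ζ‖) / 2),
      C / (1 + ‖y‖) ^ k ≤ 2 ^ k * C / (1 + ‖ζ‖) ^ k := by
    intro y hy
    rw [Metric.mem_closedBall, dist_eq_norm] at hy
    have h1 : ‖ζ‖ ≤ ‖y‖ + ‖y - ζ‖ := by
      have := norm_sub_norm_le ζ y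
      rw [norm_sub_rev] at this
      linarith
    have h2 : (1 + ‖ζ‖) / 2 ≤ 1 + ‖y‖ := by linarith
    have h3 : ((1 + ‖ζ‖) / 2) ^ k ≤ (1 + ‖y‖) ^ k := pow_le_pow_left₀ (by positivity) h2 k
    rw [div_pow] at h3
    rw [div_le_div_iff₀ (by positivity) hpos]
    have h4 : (1 + ‖ζ‖) ^ k ≤ 2 ^ k * (1 + ‖y‖) ^ k := by
      rw [div_le_iff₀ (by positivity)] at h3
      linarith
    nlinarith [mul_le_mul_of_nonneg_left h4 hC]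
  have hζ : ζ ∈ Metric.closedBall ζ ((1 + ‖ζ‖) / 2) := Metric.mem_closedBall_self (by positivity)
  have hζξ : ζ - ξ ∈ Metric.closedBall ζ ((1 + ‖ζ‖) / 2) := by
    rw [Metric.mem_closedBall, dist_eq_norm]
    simpa using hξ
  set q : ℝ := 2 ^ k * C / (1 + ‖ζ‖) ^ k with hq
  have hq0 : 0 ≤ q := by positivity
  have hlip : ‖F (ζ - ξ) - F ζ‖ ≤ q * ‖ξ‖ := by
    have := Convex.norm_image_sub_le_of_norm_fderiv_le (𝕜 := ℝ) (f := F)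
      (s := Metric.closedBall ζ ((1 + ‖ζ‖) / 2)) (C := q) (x := ζ) (y := ζ - ξ)
      (fun x _ => F.differentiableAt) (fun x hx => ((h x).2).trans (hball x hx))
      (convex_closedBall _ _) hζ hζξ
    simpa using this
  have hbd : ‖F (ζ - ξ) - F ζ‖ ≤ 2 * q := by
    have h1 := ((h (ζ - ξ)).1).trans (hball _ hζξ)
    have h2 := ((h ζ).1).trans (hball _ hζ)
    have h3 := norm_sub_le (F (ζ - ξ)) (F ζ)
    linarith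
  have hn := norm_nonneg (F (ζ - ξ) - F ζ)
  have hn2 := norm_nonneg ξ
  have h1 : ‖F (ζ - ξ) - F ζ‖ ^ 2 ≤ (2 * q) ^ 2 * min (‖ξ‖ ^ 2) 1 := by
    rcases le_total (‖ξ‖ ^ 2) 1 with hh | hh
    · rw [min_eq_left hh]
      have : ‖F (ζ - ξ) - F ζ‖ ^ 2 ≤ (q * ‖ξ‖) ^ 2 := pow_le_pow_left₀ hn hlip 2
      nlinarith [mul_nonneg (sq_nonneg q) (sq_nonneg ‖ξ‖)]
    · rw [min_eq_right hh, mul_one]
      exact pow_le_pow_left₀ hn hbd 2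
  refine h1.trans ?_
  apply mul_le_mul_of_nonneg_right _ (by positivity)
  have h5 : (2 * q) ^ 2 = (2 * 2 ^ k * C) ^ 2 / ((1 + ‖ζ‖) ^ k) ^ 2 := by
    rw [hq, ← div_pow]
    ring
  rw [h5]
  apply div_le_div_of_nonneg_left (by positivity) hpos
  nlinarith

lemma sq_sub_le {x y : ℂ} {τ : ℝ} (hτ : 0 < τ) :
    ‖x - y‖ ^ 2 ≤ (1 + τ) * ‖x‖ ^ 2 + (1 + 1 / τ) * ‖y‖ ^ 2 := by
  have h1 := norm_sub_le x y
  have h2 := norm_nonneg x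
  have h3 := norm_nonneg y
  have h4 := norm_nonneg (x - y)
  have h5 : ‖x - y‖ ^ 2 ≤ (‖x‖ + ‖y‖) ^ 2 := pow_le_pow_left₀ h4 h1 2
  have h6 : 2 * ‖x‖ * ‖y‖ ≤ τ * ‖x‖ ^ 2 + 1 / τ * ‖y‖ ^ 2 := by
    have h7 : 0 ≤ (τ * ‖x‖ - ‖y‖) ^ 2 / τ := by positivity
    have h8 : (τ * ‖x‖ - ‖y‖) ^ 2 / τ = τ * ‖x‖ ^ 2 + 1 / τ * ‖y‖ ^ 2 - 2 * ‖x‖ * ‖y‖ := by
      field_simp
      ring
    linarith
  nlinarith

/-- the pointwise bound -/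
lemma pointwise {d : ℕ} (F : SchwartzMap (E d) ℂ) (p : ℝ) (hp : 0 ≤ p) (k : ℕ) (C : ℝ) (hC : 0 ≤ C)
    (h : ∀ x : E d, ‖F x‖ ≤ C / (1 + ‖x‖) ^ k ∧ ‖fderiv ℝ F x‖ ≤ C / (1 + ‖x‖) ^ k)
    (τ : ℝ) (hτ : 0 < τ) (hτ1 : τ < 1) (ζ ξ : E d) :
    ‖F (ζ - ξ) - F ζ‖ ^ 2 * ‖ξ‖ ^ (-p) ≤
      (1 + τ) * (1 - τ) ^ (-p) * ‖ζ‖ ^ (-p) * ‖F (ζ - ξ)‖ ^ 2 +
      ((2 * 2 ^ k * C) ^ 2 + 4 * (1 + τ) * C ^ 2 / τ ^ k + 4 * (1 + 1 / τ) * C ^ 2)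
        / (1 + ‖ζ‖) ^ k * (min (‖ξ‖ ^ 2) 1 * ‖ξ‖ ^ (-p)) := by
  have hR : 0 ≤ ‖ζ‖ := norm_nonneg _
  have hpos : 0 < (1 + ‖ζ‖) ^ k := by positivity
  have hone : 1 ≤ (1 + ‖ζ‖) ^ k := one_le_pow₀ (by linarith)
  have hw : 0 ≤ ‖ξ‖ ^ (-p) := Real.rpow_nonneg (norm_nonneg _) _
  have hm : 0 ≤ min (‖ξ‖ ^ 2) 1 := by positivity
  have hA : 0 ≤ (1 + τ) * (1 - τ) ^ (-p) * ‖ζ‖ ^ (-p) * ‖F (ζ - ξ)‖ ^ 2 := by
    have : 0 ≤ (1 - τ) ^ (-p) := Real.rpow_nonneg (by linarith) _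
    have : 0 ≤ ‖ζ‖ ^ (-p) := Real.rpow_nonneg (by linarith) _
    positivity
  have hB1 : 0 ≤ (2 * 2 ^ k * C) ^ 2 := by positivity
  have hB2 : 0 ≤ 4 * (1 + τ) * C ^ 2 / τ ^ k := by positivity
  have hB3 : 0 ≤ 4 * (1 + 1 / τ) * C ^ 2 := by positivity
  rcases le_or_gt ‖ξ‖ ((1 + ‖ζ‖) / 2) with hξ | hξ
  · have h1 := diff_bound F k C hC h ζ ξ hξ
    have h2 := mul_le_mul_of_nonneg_right h1 hw
    have h3 : (2 * 2 ^ k * C) ^ 2 / (1 + ‖ζ‖) ^ k * min (‖ξ‖ ^ 2) 1 * ‖ξ‖ ^ (-p) ≤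
        ((2 * 2 ^ k * C) ^ 2 + 4 * (1 + τ) * C ^ 2 / τ ^ k + 4 * (1 + 1 / τ) * C ^ 2)
        / (1 + ‖ζ‖) ^ k * (min (‖ξ‖ ^ 2) 1 * ‖ξ‖ ^ (-p)) := by
      rw [mul_assoc]
      apply mul_le_mul_of_nonneg_right _ (mul_nonneg hm hw)
      apply div_le_div_of_nonneg_right _ hpos.le
      linarith
    linarith
  · have hξ2 : (1:ℝ) / 2 < ‖ξ‖ := by linarith
    have hmin : (1:ℝ) / 4 ≤ min (‖ξ‖ ^ 2) 1 := by
      apply le_min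
      · nlinarith
      · norm_num
    have hw4 : ‖ξ‖ ^ (-p) ≤ 4 * (min (‖ξ‖ ^ 2) 1 * ‖ξ‖ ^ (-p)) := by nlinarith
    have hFζ : ‖F ζ‖ ^ 2 ≤ C ^ 2 / (1 + ‖ζ‖) ^ k := by
      have h1 := pow_le_pow_left₀ (norm_nonneg _) (h ζ).1 2
      refine h1.trans ?_
      rw [div_pow]
      apply div_le_div_of_nonneg_left (by positivity) hpos
      nlinarith
    have hsq := sq_sub_le (x := F (ζ - ξ)) (y := F ζ) hτ
    have hsq' := mul_le_mul_of_nonneg_right hsq hw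
    have hexp : ((1 + τ) * ‖F (ζ - ξ)‖ ^ 2 + (1 + 1 / τ) * ‖F ζ‖ ^ 2) * ‖ξ‖ ^ (-p) =
        (1 + τ) * ‖F (ζ - ξ)‖ ^ 2 * ‖ξ‖ ^ (-p) + (1 + 1 / τ) * ‖F ζ‖ ^ 2 * ‖ξ‖ ^ (-p) := by ring
    rw [hexp] at hsq'
    have hterm2 : (1 + 1 / τ) * ‖F ζ‖ ^ 2 * ‖ξ‖ ^ (-p) ≤
        (4 * (1 + 1 / τ) * C ^ 2) / (1 + ‖ζ‖) ^ k * (min (‖ξ‖ ^ 2) 1 * ‖ξ‖ ^ (-p)) := by
      have h1 : (1 + 1 / τ) * ‖F ζ‖ ^ 2 ≤ (1 + 1 / τ) * (C ^ 2 / (1 + ‖ζ‖) ^ k) :=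
        mul_le_mul_of_nonneg_left hFζ (by positivity)
      calc (1 + 1 / τ) * ‖F ζ‖ ^ 2 * ‖ξ‖ ^ (-p)
          ≤ (1 + 1 / τ) * (C ^ 2 / (1 + ‖ζ‖) ^ k) * (4 * (min (‖ξ‖ ^ 2) 1 * ‖ξ‖ ^ (-p))) :=
            mul_le_mul h1 hw4 hw (by positivity)
        _ = _ := by ring
    rcases le_or_gt ‖ζ - ξ‖ (τ * ‖ζ‖) with hc | hc
    · -- region C
      have h1 : (1 - τ) * ‖ζ‖ ≤ ‖ξ‖ := by
        have := norm_sub_norm_le ζ ξ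
        nlinarith
      have hζ0 : 0 < ‖ζ‖ := by
        rcases hR.lt_or_eq with h0 | h0
        · exact h0
        · exfalso
          rw [← h0, mul_zero] at hc
          have h3 : ζ - ξ = 0 := norm_le_zero_iff.1 hc
          have h4 : ζ = ξ := sub_eq_zero.1 h3
          rw [← h4, ← h0] at hξ2
          norm_num at hξ2
      have h2 : ‖ξ‖ ^ (-p) ≤ (1 - τ) ^ (-p) * ‖ζ‖ ^ (-p) := by
        rw [← Real.mul_rpow (by linarith) hR]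
        exact Real.rpow_le_rpow_of_nonpos (mul_pos (by linarith) hζ0) h1 (by linarith)
      have hterm1 : (1 + τ) * ‖F (ζ - ξ)‖ ^ 2 * ‖ξ‖ ^ (-p) ≤
          (1 + τ) * (1 - τ) ^ (-p) * ‖ζ‖ ^ (-p) * ‖F (ζ - ξ)‖ ^ 2 := by
        have := mul_le_mul_of_nonneg_left h2 (by positivity : 0 ≤ (1 + τ) * ‖F (ζ - ξ)‖ ^ 2)
        calc _ ≤ _ := this
          _ = _ := by ring
      have h3 : (4 * (1 + 1 / τ) * C ^ 2) / (1 + ‖ζ‖) ^ k * (min (‖ξ‖ ^ 2) 1 * ‖ξ‖ ^ (-p)) ≤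
          ((2 * 2 ^ k * C) ^ 2 + 4 * (1 + τ) * C ^ 2 / τ ^ k + 4 * (1 + 1 / τ) * C ^ 2)
          / (1 + ‖ζ‖) ^ k * (min (‖ξ‖ ^ 2) 1 * ‖ξ‖ ^ (-p)) := by
        apply mul_le_mul_of_nonneg_right _ (mul_nonneg hm hw)
        apply div_le_div_of_nonneg_right _ hpos.le
        linarith
      linarith
    · -- region B
      have h1 : τ * (1 + ‖ζ‖) ≤ 1 + ‖ζ - ξ‖ := by nlinarith
      have h2 : (τ * (1 + ‖ζ‖)) ^ k ≤ (1 + ‖ζ - ξ‖) ^ k := pow_le_pow_left₀ (by positivity) h1 k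
      have h3 : 1 ≤ (1 + ‖ζ - ξ‖) ^ k := one_le_pow₀ (by linarith [norm_nonneg (ζ - ξ)])
      have h4 : ‖F (ζ - ξ)‖ ^ 2 ≤ C ^ 2 / τ ^ k / (1 + ‖ζ‖) ^ k := by
        have h5 := pow_le_pow_left₀ (norm_nonneg _) (h (ζ - ξ)).1 2
        refine h5.trans ?_
        rw [div_pow, div_div, ← mul_pow]
        apply div_le_div_of_nonneg_left (by positivity) (by positivity)
        nlinarith
      have hterm1 : (1 + τ) * ‖F (ζ - ξ)‖ ^ 2 * ‖ξ‖ ^ (-p) ≤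
          (4 * (1 + τ) * C ^ 2 / τ ^ k) / (1 + ‖ζ‖) ^ k * (min (‖ξ‖ ^ 2) 1 * ‖ξ‖ ^ (-p)) := by
        have h5 : (1 + τ) * ‖F (ζ - ξ)‖ ^ 2 ≤ (1 + τ) * (C ^ 2 / τ ^ k / (1 + ‖ζ‖) ^ k) :=
          mul_le_mul_of_nonneg_left h4 (by positivity)
        calc (1 + τ) * ‖F (ζ - ξ)‖ ^ 2 * ‖ξ‖ ^ (-p)
            ≤ (1 + τ) * (C ^ 2 / τ ^ k / (1 + ‖ζ‖) ^ k) *
                (4 * (min (‖ξ‖ ^ 2) 1 * ‖ξ‖ ^ (-p))) :=
              mul_le_mul h5 hw4 hw (by positivity)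
          _ = _ := by ring
      have hsum : ((2 * 2 ^ k * C) ^ 2 + 4 * (1 + τ) * C ^ 2 / τ ^ k + 4 * (1 + 1 / τ) * C ^ 2)
          / (1 + ‖ζ‖) ^ k * (min (‖ξ‖ ^ 2) 1 * ‖ξ‖ ^ (-p)) =
          (2 * 2 ^ k * C) ^ 2 / (1 + ‖ζ‖) ^ k * (min (‖ξ‖ ^ 2) 1 * ‖ξ‖ ^ (-p)) +
          (4 * (1 + τ) * C ^ 2 / τ ^ k) / (1 + ‖ζ‖) ^ k * (min (‖ξ‖ ^ 2) 1 * ‖ξ‖ ^ (-p)) +
          (4 * (1 + 1 / τ) * C ^ 2) / (1 + ‖ζ‖) ^ k * (min (‖ξ‖ ^ 2) 1 * ‖ξ‖ ^ (-p)) := by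
        ring
      have hB1' : 0 ≤ (2 * 2 ^ k * C) ^ 2 / (1 + ‖ζ‖) ^ k *
          (min (‖ξ‖ ^ 2) 1 * ‖ξ‖ ^ (-p)) := by positivity
      rw [hsum]
      linarith

lemma exists_tau (p ε : ℝ) (hε : 0 < ε) :
    ∃ τ : ℝ, 0 < τ ∧ τ < 1 ∧ (1 + τ) * (1 - τ) ^ (-p) ≤ 1 + ε := by
  have hc : ContinuousAt (fun τ : ℝ => (1 + τ) * (1 - τ) ^ (-p)) 0 := by
    apply ContinuousAt.mul (by fun_prop)
    apply ContinuousAt.rpow_const (by fun_prop)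
    left
    norm_num
  have h0 : (1 + (0:ℝ)) * (1 - (0:ℝ)) ^ (-p) < 1 + ε := by simp [hε]
  have h1 : ∀ᶠ τ : ℝ in 𝓝 0, (1 + τ) * (1 - τ) ^ (-p) < 1 + ε := hc.eventually_lt_const h0
  have h2 : ∀ᶠ τ : ℝ in 𝓝 0, τ < 1 := eventually_lt_nhds zero_lt_one
  have h3 : ∀ᶠ τ : ℝ in 𝓝[>] 0, 0 < τ := eventually_mem_nhdsWithin
  obtain ⟨τ, h4, h5, h6⟩ := ((h1.filter_mono nhdsWithin_le_nhds).and
    ((h2.filter_mono nhdsWithin_le_nhds).and h3)).exists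
  exact ⟨τ, h6, h5, h4.le⟩

lemma integrable_sq {d : ℕ} (F : SchwartzMap (E d) ℂ) : Integrable (fun x : E d => ‖F x‖ ^ 2) :=
  (memLp_two_iff_integrable_sq_norm F.continuous.aestronglyMeasurable).1 (F.memLp 2 volume)

lemma integrable_sq' {d : ℕ} (F : SchwartzMap (E d) ℂ) (ζ : E d) :
    Integrable (fun x : E d => ‖F (ζ - x)‖ ^ 2) :=
  (integrable_sq F).comp_sub_left ζ

theorem mult_est (d : ℕ) (a : ℝ) (ha : 0 < a) (ha2 : a < 2) (F : SchwartzMap (E d) ℂ) :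
    (∀ ζ : E d, Integrable (fun ξ : E d => ‖F (ζ - ξ) - F ζ‖ ^ 2 * ‖ξ‖ ^ (-((d:ℝ) + 1) - a))) ∧
    ∀ (ε : ℝ), 0 < ε → ∀ k : ℕ, ∃ C : ℝ, 0 ≤ C ∧ ∀ ζ : E d, ζ ≠ 0 →
      ∫ ξ : E d, ‖F (ζ - ξ) - F ζ‖ ^ 2 * ‖ξ‖ ^ (-((d:ℝ) + 1) - a) ≤
        (1 + ε) * (∫ ξ : E d, ‖F ξ‖ ^ 2) * ‖ζ‖ ^ (-((d:ℝ) + 1) - a)
          + C * (1 + ‖ζ‖) ^ (-(k:ℝ)) := by
  have hpe : -((d:ℝ) + 1) - a = -((d:ℝ) + 1 + a) := by ring
  have hp : 0 ≤ (d:ℝ) + 1 + a := by positivity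
  have hWi := W_integrable d a ha ha2
  have hint : ∀ ζ : E d,
      Integrable (fun ξ : E d => ‖F (ζ - ξ) - F ζ‖ ^ 2 * ‖ξ‖ ^ (-((d:ℝ) + 1) - a)) := by
    intro ζ
    obtain ⟨C, hC, h⟩ := decay F 0
    have hb := fun ξ => pointwise F ((d:ℝ) + 1 + a) hp 0 C hC h (1/2) (by norm_num) (by norm_num) ζ ξ
    rw [hpe] at hWi ⊢
    refine Integrable.mono' (((integrable_sq' F ζ).const_mul
      ((1 + 1 / 2) * (1 - 1 / 2) ^ (-((d:ℝ) + 1 + a)) * ‖ζ‖ ^ (-((d:ℝ) + 1 + a)))).add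
      (hWi.const_mul (((2 * 2 ^ 0 * C) ^ 2 + 4 * (1 + 1 / 2) * C ^ 2 / (1 / 2) ^ 0 +
        4 * (1 + 1 / (1 / 2)) * C ^ 2) / (1 + ‖ζ‖) ^ 0))) ?_ (ae_of_all _ fun ξ => ?_)
    · apply Measurable.aestronglyMeasurable
      apply Measurable.mul
      · have : Continuous fun ξ : E d => ‖F (ζ - ξ) - F ζ‖ ^ 2 := by
          have := F.continuous
          fun_prop
        exact this.measurable
      · exact measurable_norm.pow_const _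
    · rw [Real.norm_of_nonneg (by positivity)]
      exact hb ξ
  refine ⟨hint, ?_⟩
  intro ε hε k
  obtain ⟨τ, hτ, hτ1, hτe⟩ := exists_tau ((d:ℝ) + 1 + a) ε hε
  obtain ⟨C, hC, h⟩ := decay F k
  have hb := pointwise F ((d:ℝ) + 1 + a) hp k C hC h τ hτ hτ1
  set B : ℝ := (2 * 2 ^ k * C) ^ 2 + 4 * (1 + τ) * C ^ 2 / τ ^ k + 4 * (1 + 1 / τ) * C ^ 2 with hB
  have hB0 : 0 ≤ B := by positivity
  have hW0 : 0 ≤ ∫ ξ : E d, min (‖ξ‖ ^ 2) 1 * ‖ξ‖ ^ (-((d:ℝ) + 1 + a)) := by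
    apply integral_nonneg
    intro ξ
    have : 0 ≤ ‖ξ‖ ^ (-((d:ℝ) + 1 + a)) := Real.rpow_nonneg (norm_nonneg _) _
    positivity
  refine ⟨B * ∫ ξ : E d, min (‖ξ‖ ^ 2) 1 * ‖ξ‖ ^ (-((d:ℝ) + 1 + a)), mul_nonneg hB0 hW0, ?_⟩
  intro ζ _
  have hintζ := hint ζ
  rw [hpe] at hWi hintζ ⊢
  have h1 := integral_mono hintζ (((integrable_sq' F ζ).const_mul
    ((1 + τ) * (1 - τ) ^ (-((d:ℝ) + 1 + a)) * ‖ζ‖ ^ (-((d:ℝ) + 1 + a)))).add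
    (hWi.const_mul (B / (1 + ‖ζ‖) ^ k))) (hb ζ)
  refine h1.trans ?_
  rw [integral_add' ((integrable_sq' F ζ).const_mul _) (hWi.const_mul _), integral_const_mul,
    integral_const_mul, integral_sub_left_eq_self (fun x => ‖F x‖ ^ 2)]
  have hI0 : 0 ≤ ∫ ξ : E d, ‖F ξ‖ ^ 2 := integral_nonneg fun ξ => by positivity
  have hζ0 : 0 ≤ ‖ζ‖ ^ (-((d:ℝ) + 1 + a)) := Real.rpow_nonneg (norm_nonneg _) _
  have hk : (1 + ‖ζ‖) ^ (-(k:ℝ)) = 1 / (1 + ‖ζ‖) ^ k := by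
    rw [Real.rpow_neg (by positivity), Real.rpow_natCast, one_div]
  rw [hk]
  apply add_le_add
  · have := mul_le_mul_of_nonneg_right hτe (mul_nonneg hζ0 hI0)
    calc _ = (1 + τ) * (1 - τ) ^ (-((d:ℝ) + 1 + a)) *
          (‖ζ‖ ^ (-((d:ℝ) + 1 + a)) * ∫ ξ : E d, ‖F ξ‖ ^ 2) := by ring
      _ ≤ _ := this
      _ = _ := by ring
  · apply le_of_eq
    ring

end Pool.Agent.TH279.J233
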